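import Pool.Agent.Lib.MP_a90607_co.Cover

/-!
# Magic constants of edge-magic labelings of cycles

Every integer of the interval allowed by the counting bound is the magic constant of an
edge-magic labeling of the cycle with `n` vertices, for all `n ≥ 4` except `n = 5`.
-/

set_option autoImplicit false

namespace Pool.Agent.Results.MP_a90607_co.MagicConstants

open SimpleGraph Pool.Agent.Lib.MP_a90607_co

/-- `f` is an edge-magic labeling of the graph `G` with magic constant `M`: it is a bijection from
the vertices and edges of `G` onto `{1, …, n + m}`, where `n` and `m` are the numbers of vertices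
and of edges, and `f(u) + f(uv) + f(v) = M` for every edge `uv`. -/
def IsEdgeMagicLabeling {V : Type} (G : SimpleGraph V) (f : V ⊕ G.edgeSet → ℕ) (M : ℤ) : Prop :=
  Set.BijOn f Set.univ (Set.Icc 1 (Nat.card V + Nat.card G.edgeSet)) ∧
    ∀ (u v : V) (h : G.Adj u v),
      (f (Sum.inl u) : ℤ) + f (Sum.inr ⟨s(u, v), h⟩) + f (Sum.inl v) = M

/-- `M` is a magic constant of the graph `G`. -/
def IsMagicConstant {V : Type} (G : SimpleGraph V) (M : ℤ) : Prop :=
  ∃ f : V ⊕ G.edgeSet → ℕ, IsEdgeMagicLabeling G f M

lemma adj_rot (m : ℕ) (i : Fin (m + 3)) : (cycleGraph (m + 3)).Adj i (finRotate (m + 3) i) := by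
  rw [cycleGraph_adj]
  right
  rw [finRotate_apply]
  simp

/-- The edge from a vertex of the cycle to the next one. -/
def edge (m : ℕ) (i : Fin (m + 3)) : (cycleGraph (m + 3)).edgeSet :=
  ⟨s(i, finRotate (m + 3) i), adj_rot m i⟩

lemma edge_injective (m : ℕ) : Function.Injective (edge m) := by
  intro i j h
  have h1 : s(i, finRotate (m + 3) i) = s(j, finRotate (m + 3) j) := congrArg Subtype.val h
  rw [Sym2.eq_iff] at h1
  rcases h1 with h1 | ⟨h1, h2⟩
  · exact h1.1
  · exfalso
    rw [finRotate_apply] at h1 h2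
    have h3 : j = j + 1 + 1 := by rw [← h1]; exact h2.symm
    have h4 : (1 + 1 : Fin (m + 3)) = 0 := by
      have h5 : j + (1 + 1) = j + 0 := by rw [← add_assoc, ← h3, add_zero]
      exact add_left_cancel h5
    have h6 := congrArg Fin.val h4
    simp [Fin.val_add, Nat.mod_eq_of_lt] at h6

lemma edge_surjective (m : ℕ) : Function.Surjective (edge m) := by
  rintro ⟨e, he⟩
  induction e using Sym2.ind with
  | _ u v =>
    have h : (cycleGraph (m + 3)).Adj u v := he
    rw [cycleGraph_adj] at h
    rcases h with h | h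
    · refine ⟨v, Subtype.ext ?_⟩
      have h1 : finRotate (m + 3) v = u := by
        rw [finRotate_apply, ← h]
        exact add_sub_cancel v u
      show s(v, finRotate (m + 3) v) = s(u, v)
      rw [h1, Sym2.eq_swap]
    · refine ⟨u, Subtype.ext ?_⟩
      have h1 : finRotate (m + 3) u = v := by
        rw [finRotate_apply, ← h]
        exact add_sub_cancel u v
      show s(u, finRotate (m + 3) u) = s(u, v)
      rw [h1]

/-- The vertices of the cycle are in bijection with its edges. -/
noncomputable def edgeEquiv (m : ℕ) : Fin (m + 3) ≃ (cycleGraph (m + 3)).edgeSet :=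
  Equiv.ofBijective (edge m) ⟨edge_injective m, edge_surjective m⟩

lemma isMagicConstant_of_good {n : ℕ} (hn : 3 ≤ n) {J : ℤ} (hJ : 0 ≤ J) (h : Good n J) :
    IsMagicConstant (cycleGraph n) J := by
  obtain ⟨m, rfl⟩ : ∃ m, n = m + 3 := ⟨n - 3, by omega⟩
  obtain ⟨j, rfl⟩ : ∃ j : ℕ, J = (j : ℤ) := ⟨J.toNat, by omega⟩
  obtain ⟨f, g, hinj, hmem, hsum⟩ := h.exists_functions
  set F : Fin (m + 3) ⊕ (cycleGraph (m + 3)).edgeSet → ℕ :=
    Sum.elim f (fun e => g ((edgeEquiv m).symm e)) with hF
  have hFe : F = Sum.elim f g ∘ (Equiv.sumCongr (Equiv.refl _) (edgeEquiv m).symm) := by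
    funext x
    rcases x with x | x <;> simp [hF]
  have hFinj : Function.Injective F := by
    rw [hFe]
    exact hinj.comp (Equiv.injective _)
  have hcardE : Nat.card (cycleGraph (m + 3)).edgeSet = m + 3 := by
    rw [← Nat.card_congr (edgeEquiv m), Nat.card_fin]
  have hFmem : ∀ x, F x ∈ Finset.Icc 1 (2 * (m + 3)) := by
    intro x
    rw [hFe]
    exact hmem _
  have hsurj : Set.SurjOn F Set.univ (Set.Icc 1 (2 * (m + 3))) := by
    have : Fintype (Fin (m + 3) ⊕ (cycleGraph (m + 3)).edgeSet) := Fintype.ofFinite _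
    have h1 : Finset.univ.image F = Finset.Icc 1 (2 * (m + 3)) := by
      apply Finset.eq_of_subset_of_card_le
      · intro y hy
        rw [Finset.mem_image] at hy
        obtain ⟨x, _, rfl⟩ := hy
        exact hFmem x
      · rw [Finset.card_image_of_injective _ hFinj, Finset.card_univ, Nat.card_Icc,
          ← Nat.card_eq_fintype_card, Nat.card_sum, hcardE, Nat.card_fin]
        omega
    intro y hy
    have h2 : y ∈ Finset.univ.image F := by
      rw [h1, Finset.mem_Icc]
      exact hy
    rw [Finset.mem_image] at h2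
    obtain ⟨x, _, hx⟩ := h2
    exact ⟨x, Set.mem_univ _, hx⟩
  have hcard : Nat.card (Fin (m + 3)) + Nat.card (cycleGraph (m + 3)).edgeSet = 2 * (m + 3) := by
    rw [hcardE, Nat.card_fin]; omega
  have hedge : ∀ (i : Fin (m + 3)) (e : (cycleGraph (m + 3)).edgeSet),
      (e : Sym2 (Fin (m + 3))) = s(i, finRotate (m + 3) i) → (edgeEquiv m).symm e = i := by
    intro i e he
    rw [Equiv.symm_apply_eq]
    exact Subtype.ext he
  refine ⟨F, ⟨?_, hFinj.injOn, ?_⟩, ?_⟩
  · intro x _
    rw [hcard]
    exact Finset.mem_Icc.1 (hFmem x)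
  · rw [hcard]
    exact hsurj
  · intro u v huv
    have hadj := huv
    rw [cycleGraph_adj] at hadj
    rcases hadj with h | h
    · have h1 : finRotate (m + 3) v = u := by
        rw [finRotate_apply, ← h]
        exact add_sub_cancel v u
      have h2 : (edgeEquiv m).symm ⟨s(u, v), huv⟩ = v := by
        apply hedge
        show s(u, v) = s(v, finRotate (m + 3) v)
        rw [h1, Sym2.eq_swap]
      have h3 := hsum v
      simp only [hF, Sum.elim_inl, Sum.elim_inr]
      rw [h2]
      rw [h1] at h3
      omega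
    · have h1 : finRotate (m + 3) u = v := by
        rw [finRotate_apply, ← h]
        exact add_sub_cancel u v
      have h2 : (edgeEquiv m).symm ⟨s(u, v), huv⟩ = u := by
        apply hedge
        show s(u, v) = s(u, finRotate (m + 3) u)
        rw [h1]
      have h3 := hsum u
      simp only [hF, Sum.elim_inl, Sum.elim_inr]
      rw [h2]
      rw [h1] at h3
      omega

/-- (i) For odd `n = 2k + 1 ≥ 7` every integer `j` with `5k + 4 ≤ j ≤ 7k + 5` is the magic constant
of an edge-magic labeling of the cycle with `n` vertices; (ii) for even `n = 2k ≥ 4` every integer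
`j` with `5k + 2 ≤ j ≤ 7k + 1` is the magic constant of an edge-magic labeling of that cycle. -/
theorem result :
    (∀ k : ℕ, 7 ≤ 2 * k + 1 → ∀ j : ℤ, 5 * (k : ℤ) + 4 ≤ j → j ≤ 7 * (k : ℤ) + 5 →
      IsMagicConstant (cycleGraph (2 * k + 1)) j) ∧
    (∀ k : ℕ, 4 ≤ 2 * k → ∀ j : ℤ, 5 * (k : ℤ) + 2 ≤ j → j ≤ 7 * (k : ℤ) + 1 →
      IsMagicConstant (cycleGraph (2 * k)) j) := by
  constructor
  · intro k hk j h1 h2
    exact isMagicConstant_of_good (by omega) (by omega)
      (good_all (by push_cast; omega) (by push_cast; omega) (by omega))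
  · intro k hk j h1 h2
    exact isMagicConstant_of_good (by omega) (by omega)
      (good_all (by push_cast; omega) (by push_cast; omega) (by omega))

end Pool.Agent.Results.MP_a90607_co.MagicConstants
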